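import Pool.Agent.Lib.MP_9177b7_ag.L.Fin2

/-!
Equidistribution of Galois orbits of special points on products of modular curves with level
structure, for special points whose CM fields lie in a finite set.  The conductors are arbitrary.
-/

open MeasureTheory Filter Topology Set
open scoped UpperHalfPlane BoundedContinuousFunction MatrixGroups

noncomputable section

namespace Pool.Agent.Results.MP_9177b7_ag.CMLevels

/-- Klein's modular invariant `j = E₄ ^ 3 / Δ`, which identifies `Y(1)` with `ℂ`. -/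
def j (τ : ℍ) : ℂ := ModularForm.E₄ τ ^ 3 / ModularForm.discriminant τ

/-- The Möbius transformation of an integer matrix of positive determinant. -/
def mob (g : Matrix (Fin 2) (Fin 2) ℤ) (τ : ℍ) : ℍ :=
  UpperHalfPlane.ofComplex ((g 0 0 * τ + g 0 1) / (g 1 0 * τ + g 1 1))

/-- The map `τ ↦ (j (g a τ))_a`.  Its image is an affine model of the modular curve whose level is
the intersection of the groups `(g a)⁻¹ SL(2, ℤ) (g a)`. -/
def emb {A : Type} (g : A → Matrix (Fin 2) (Fin 2) ℤ) (τ : ℍ) : A → ℂ := fun a => j (mob (g a) τ)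

/-- The normalised hyperbolic measure on the standard fundamental domain. -/
def muF : Measure ℍ :=
  ((volume : Measure ℍ) ModularGroup.fd)⁻¹ • (volume : Measure ℍ).restrict ModularGroup.fd

/-- The image under `emb g` of the normalised hyperbolic measure of `Γ(M) \ ℍ`: the translates of
the standard domain by representatives of `Γ(M) \ SL(2, ℤ)` tile a domain for `Γ(M)`. -/
def muZ {A : Type} (M : ℕ) (g : A → Matrix (Fin 2) (Fin 2) ℤ) : Measure (A → ℂ) :=
  ((CongruenceSubgroup.Gamma M).index : ENNReal)⁻¹ •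
    Measure.sum fun q : SL(2, ℤ) ⧸ CongruenceSubgroup.Gamma M =>
      muF.map fun τ => emb g (q.out⁻¹ • τ)

/-- CM points of the upper half plane. -/
def IsCM (z : ℍ) : Prop := ∃ a b c : ℤ, a ≠ 0 ∧ a * (z : ℂ) ^ 2 + b * z + c = 0

/-- The image in `Y(1) × Y(1)` of the graph of the Möbius transformation of a rational matrix. -/
def modCurve (g : Matrix (Fin 2) (Fin 2) ℚ) : Set (ℂ × ℂ) :=
  {p | ∃ z z' : ℍ, (z' : ℂ) = (g 0 0 * z + g 0 1) / (g 1 0 * z + g 1 1) ∧ p = (j z, j z')}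

/-- The special hypersurfaces of `Y(1) ^ n`: one coordinate is a fixed CM point, or two
coordinates lie on a fixed modular curve. -/
def SpecialHyp {n : ℕ} (Z : Set (Fin n → ℂ)) : Prop :=
  (∃ (i : Fin n) (z : ℍ), IsCM z ∧ Z = {x | x i = j z}) ∨
    ∃ (i i' : Fin n) (g : Matrix (Fin 2) (Fin 2) ℚ), i ≠ i' ∧ 0 < g.det ∧
      Z = {x | (x i, x i') ∈ modCurve g}

/-- `z` lies in the field generated by the square root of `-d`. -/
def InField (d : ℕ) (z : ℍ) : Prop := ∃ x y : ℚ, (z : ℂ) = x + y * (Complex.I * Real.sqrt d)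

/-- The orbit of a point under the field automorphisms of `ℂ` that fix `E` pointwise. -/
def galOrbit {n : ℕ} {A : Type} (E : IntermediateField ℚ ℂ) (x : Fin n → A → ℂ) :
    Set (Fin n → A → ℂ) :=
  {y | ∃ σ : ℂ ≃+* ℂ, (∀ e ∈ E, σ e = e) ∧ y = fun i a => σ (x i a)}

/-- The mean of a function over the orbit. -/
def orbitMean {n : ℕ} {A : Type} (E : IntermediateField ℚ ℂ) (x : Fin n → A → ℂ)
    (φ : (Fin n → A → ℂ) → ℝ) : ℝ :=
  (∑ᶠ y ∈ galOrbit E x, φ y) / (galOrbit E x).ncard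

open Pool.Agent.Lib.MP_9177b7_ag in
theorem result (n B M : ℕ) (hM : 0 < M) (A : Type) [Fintype A] (a₀ : A)
    (g : Fin n → A → Matrix (Fin 2) (Fin 2) ℤ)
    (hg : ∀ i a, 0 < (g i a).det ∧ (g i a).det ∣ M) (h₀ : ∀ i, g i a₀ = 1)
    (E : IntermediateField ℚ ℂ) [FiniteDimensional ℚ E]
    (hE : ∀ σ : ℂ ≃+* ℂ, (∀ e ∈ E, σ e = e) → ∀ i z, ∃ z', ∀ a,
      σ (emb (g i) z a) = emb (g i) z' a)
    (τ : ℕ → Fin n → ℍ) (hK : ∀ m i, ∃ d ≤ B, InField d (τ m i))
    (hs : ∀ Z, SpecialHyp Z → ∀ᶠ m in atTop, (fun i => j (τ m i)) ∉ Z) :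
    (∀ m, (galOrbit E fun i => emb (g i) (τ m i)).Finite) ∧ ∀ φ : (Fin n → A → ℂ) →ᵇ ℝ,
      Tendsto (fun m => orbitMean E (fun i => emb (g i) (τ m i)) φ) atTop
        (𝓝 (∫ x, φ x ∂(Measure.pi fun i => muZ M (g i)))) :=
  J.Lv.finalE ⟨hM, hg, h₀⟩ hE B τ hK (fun i z hz => hs _ (Or.inl ⟨i, z, hz, rfl⟩))
    fun i i' h g hg => hs _ (Or.inr ⟨i, i', g, h, hg, rfl⟩)

end Pool.Agent.Results.MP_9177b7_ag.CMLevels
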