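import Pool.Agent.Lib.MP_9177b7_ag.SO.All

/-!
Equidistribution of CM points on orthogonal Shimura varieties of signature `(N - 2, 2)`, `N` odd.
The CM fields vary.
-/

open NumberField MeasureTheory Filter Topology
open scoped nonZeroDivisors BoundedContinuousFunction

namespace Pool.Agent.Results.MP_9177b7_ag.OrthogonalK3

open Pool.Agent.Lib.MP_9177b7_ag.SO

theorem result (N p : ℕ) [NeZero N] [Fact p.Prime] (A : Matrix (Fin N) (Fin N) ℤ)
    (v₀ : Per A) (hN : 7 ≤ N) (hA : Lat A) (hp : ¬ (p : ℤ) ∣ A.det)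
    (E : ℕ → Type) [∀ m, Field (E m)] [∀ m, NumberField (E m)] [∀ m, IsCMField (E m)]
    (φ : ∀ m, E m →+* ℂ) (lam : ∀ m, E m) (a : ∀ m, FractionalIdeal (𝓞 (E m))⁰ (E m))
    (g : ∀ m, E m) (x : ∀ m, Fin N → E m) (t : ℕ → Fin N → ℤ)
    (hs : ∀ m, Special A p (φ m) (lam m) (a m) (g m) (x m) (t m))
    (hd : Tendsto (fun m => rd (E m)) atTop atTop) :
    (∀ m, (orbit A (φ m) (lam m) (a m) (g m) (x m) (t m)).Finite) ∧
    ∃ μ : @Measure (YY A) (borel _),
      (∀ ν : @Measure (YY A) (borel _), (ν Set.univ = 1 ∧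
        ∀ u : GR A, @Measure.map _ _ (borel _) (borel _) (u • ·) ν = ν) ↔ ν = μ) ∧
      ∀ f : SS A →ᵇ ℝ, Tendsto
        (fun m => mean (orbit A (φ m) (lam m) (a m) (g m) (x m) (t m)) f) atTop
        (𝓝 (∫ y, f (proj v₀ y) ∂μ)) := by
  have h1 := (hs 0).dim
  have h2 := Module.finrank_mul_finrank ℚ (maximalRealSubfield (E 0)) (E 0)
  rw [Fr0.h2] at h2
  obtain ⟨n, rfl⟩ : ∃ n, N = 2 * n + 3 :=
    ⟨Module.finrank ℚ (maximalRealSubfield (E 0)) - 1, by omega⟩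
  exact final_all n p A v₀ (by omega) hA hp E φ lam a g x t hs hd

end Pool.Agent.Results.MP_9177b7_ag.OrthogonalK3
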