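import Pool.Agent.Lib.MP_9177b7_ag.S4.All

/-!
Equidistribution of CM points on the Siegel modular threefold.  The quartic CM fields vary.
-/

open NumberField MeasureTheory Filter Topology
open scoped nonZeroDivisors BoundedContinuousFunction

namespace Pool.Agent.Results.MP_9177b7_ag.SiegelThreefold

open Pool.Agent.Lib.MP_9177b7_ag.S4

theorem result (p : ℕ) [Fact p.Prime] (hp : p ≠ 2)
    (E L N : ℕ → Type) [∀ m, Field (E m)] [∀ m, NumberField (E m)] [∀ m, IsCMField (E m)]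
    [∀ m, Field (L m)] [∀ m, NumberField (L m)] [∀ m, IsCMField (L m)]
    [∀ m, Field (N m)] [∀ m, NumberField (N m)] [∀ m, Algebra (E m) (N m)]
    [∀ m, Algebra (L m) (N m)] (φ : ∀ m, N m →+* ℂ) (r s : ∀ m, N m ≃ₐ[ℚ] N m)
    (ξ : ∀ m, E m) (a : ∀ m, FractionalIdeal (𝓞 (E m))⁰ (E m))
    (hs : ∀ m, Special (L m) p (φ m) (r m) (s m) (ξ m) (a m))
    (hd : Tendsto (fun m => (discr (maximalRealSubfield (E m))).natAbs) atTop atTop) :
    (∀ m, (orbit (L m) (φ m) (r m) (ξ m) (a m)).Finite) ∧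
    ∃ μ : @Measure YY (borel _),
      (∀ ν : @Measure YY (borel _), (ν Set.univ = 1 ∧
        ∀ g : SP ℝ, @Measure.map _ _ (borel _) (borel _) (g • ·) ν = ν) ↔ ν = μ) ∧
      ∀ f : A2 →ᵇ ℝ, Tendsto (fun m => mean (orbit (L m) (φ m) (r m) (ξ m) (a m)) f) atTop
        (𝓝 (∫ y, f (proj y) ∂μ)) :=
  final_all p hp E L N φ r s ξ a hs hd

end Pool.Agent.Results.MP_9177b7_ag.SiegelThreefold
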