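import Pool.Agent.Lib.MP_9177b7_ag.V.All

/-!
Equidistribution of CM points on the Shimura varieties of principal level `l` of the unitary groups
`U(a, b)` over an imaginary quadratic field, `a` and `b` coprime, `a + b ≥ 3`.  The CM fields vary.
-/

open NumberField MeasureTheory Filter Topology
open scoped nonZeroDivisors BoundedContinuousFunction

namespace Pool.Agent.Results.MP_9177b7_ag.UnitaryAB

open Pool.Agent.Lib.MP_9177b7_ag.B.U Pool.Agent.Lib.MP_9177b7_ag.B.U.V

theorem result [Sg] (n p l : ℕ) [Fact p.Prime] (K : IntermediateField ℚ ℂ) [NumberField K]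
    (hb : (nb n).Coprime (n + 3)) (hl : l.Coprime p) (hK : Module.finrank ℚ K = 2)
    (hK' : ∃ z ∈ K, z.im ≠ 0)
    (L : ℕ → Type) [∀ m, Field (L m)] [∀ m, NumberField (L m)] [∀ m, IsCMField (L m)]
    [∀ m, Algebra K (L m)] (ι : ℕ → Type) [∀ m, Finite (ι m)] [∀ m, Nonempty (ι m)]
    (lam : ∀ m, ι m → L m) (a : ∀ m, ι m → FractionalIdeal (𝓞 (L m))⁰ (L m))
    (e : ∀ m, ι m → Fin (n + 3) → L m) (hs : ∀ m i, Special n K p (lam m i) (a m i))
    (he : ∀ m i, Frame n K (lam m i) (a m i) (e m i))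
    (hd : Tendsto (fun m => (discr (L m)).natAbs) atTop atTop) :
    (∀ m, (⋃ i, orbitL n K l (lam m i) (a m i) (e m i)).Finite) ∧
    ∃ μ : @Measure (YYl n K l) (borel _),
      (∀ ν : @Measure (YYl n K l) (borel _), (ν Set.univ = 1 ∧
        ∀ g : SU n, @Measure.map _ _ (borel _) (borel _) (g • ·) ν = ν) ↔ ν = μ) ∧
      ∀ f : SSl n K l →ᵇ ℝ, Tendsto
        (fun m => mean (⋃ i, orbitL n K l (lam m i) (a m i) (e m i)) f) atTop
        (𝓝 (∫ y, f (projL n K l y) ∂μ)) :=
  finalL_all n p l K hb hl hK hK' L ι lam a e hs he hd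

end Pool.Agent.Results.MP_9177b7_ag.UnitaryAB
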